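import Pool.Agent.helper7.EP.SpecA

set_option autoImplicit false

open Finset PowerSeries

noncomputable section

namespace Pool.Agent.EP

theorem EXA : EXA_stmt := by
  intro a y
  have hA : 0 < 2 ^ a := by positivity
  have hsub : ExA a y ⊆ (Icc 1 (2 * y / 2 ^ a) ×ˢ range (Nat.sqrt (2 * y) + 1)).image
      (fun x : ℕ × ℕ => 2 ^ a * x.1 + 3 * x.2 ^ 2) := by
    intro p hp
    unfold ExA Pt at hp
    simp only [mem_filter, mem_Ioc] at hp
    obtain ⟨⟨⟨-, hp2⟩, -, -⟩, u, -, hu2, m, hm⟩ := hp
    rw [mem_image]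
    refine ⟨(m, u), ?_, ?_⟩
    · rw [mem_product, mem_Icc, mem_range]
      refine ⟨⟨?_, ?_⟩, ?_⟩
      · rcases Nat.eq_zero_or_pos m with rfl | h
        · rw [mul_zero] at hm
          omega
        · exact h
      · change m ≤ 2 * y / 2 ^ a
        rw [Nat.le_div_iff_mul_le hA, mul_comm]
        omega
      · have h1 : u * u ≤ 2 * y := by nlinarith
        exact Nat.lt_succ_of_le (Nat.le_sqrt.2 h1)
    · change 2 ^ a * m + 3 * u ^ 2 = p
      omega
  refine (card_le_card hsub).trans (card_image_le.trans ?_)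
  rw [card_product, Nat.card_Icc, card_range, Nat.add_sub_cancel]

end Pool.Agent.EP
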