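import Pool.Agent.helper81.EP.SpecO

/-!
Project ep: module OP: one odd representation gives an odd value on the right side.
-/

set_option autoImplicit false

open Finset
open scoped Real

noncomputable section

namespace Pool.Agent.EP

theorem OP_pp (n : ℕ) : pp n = if Odd (Fintype.card (Nat.Partition n)) then 1 else 0 := by
  unfold pp
  have h2 : (2 : ZMod 2) = 0 := by decide
  split_ifs with h
  · obtain ⟨k, hk⟩ := h
    rw [hk]
    push_cast
    rw [h2]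
    simp
  · rw [Nat.not_odd_iff_even] at h
    obtain ⟨k, hk⟩ := h
    rw [hk]
    push_cast
    rw [← two_mul, h2]
    simp

theorem OP_pow (b : ℕ) (hb : 2 ≤ b) : 4 ^ b % 24 = 16 ∧ 16 ≤ 4 ^ b := by
  induction b, hb using Nat.le_induction with
  | base => norm_num
  | succ a _ ih =>
    rw [pow_succ]
    omega

theorem OP_val {A n w d s M : ℕ} (hA : A % 24 = 16) (_hA16 : 16 ≤ A) (hw1 : w % 2 = 1)
    (hw2 : 3 * w ^ 2 < A) (_hM0 : 0 < M)
    (hn : 24 * n + 3 = M + A) (hd1 : d ∣ A - 3 * w ^ 2) (hd2 : d ∣ M)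
    (hs : s = ((A - 3 * w ^ 2) * M / d ^ 2 + 1) / 24) :
    0 < d ∧ 1 ≤ s ∧ s ≤ A * n ∧ (A - 3 * w ^ 2) * M = d ^ 2 * (24 * s - 1) := by
  have hwsq : 3 * w ^ 2 % 24 = 3 := by
    have h8 : w % 8 = 1 ∨ w % 8 = 3 ∨ w % 8 = 5 ∨ w % 8 = 7 := by omega
    have h9 : w ^ 2 % 8 = 1 := by
      rcases h8 with h | h | h | h <;> simp [Nat.pow_mod, h]
    omega
  have hwpos : 1 ≤ w ^ 2 := Nat.one_le_pow _ _ (by omega)
  obtain ⟨B, hB⟩ : ∃ B, B = A - 3 * w ^ 2 := ⟨_, rfl⟩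
  rw [← hB] at hs hd1 ⊢
  have hB24 : B % 24 = 13 := by omega
  have hB0 : 0 < B := by omega
  have hd0 : 0 < d := Nat.pos_of_dvd_of_pos hd1 hB0
  have hdB : d ≤ B := Nat.le_of_dvd hB0 hd1
  have hd2' : d % 2 = 1 := by
    by_contra h
    have h2 : 2 ∣ d := by omega
    have h3 := h2.trans hd1
    omega
  have hd3 : d % 3 ≠ 0 := by
    intro h
    have h2 : 3 ∣ d := by omega
    have h3 := h2.trans hd1
    omega
  have hdsq : d ^ 2 % 24 = 1 := by
    have h8 : d % 24 = 1 ∨ d % 24 = 5 ∨ d % 24 = 7 ∨ d % 24 = 11 ∨ d % 24 = 13 ∨ d % 24 = 17 ∨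
        d % 24 = 19 ∨ d % 24 = 23 := by omega
    rcases h8 with h | h | h | h | h | h | h | h <;> simp [Nat.pow_mod, h]
  have hdpos : 0 < d ^ 2 := by positivity
  have hdvd : d ^ 2 ∣ B * M := by
    rw [sq]; exact Nat.mul_dvd_mul hd1 hd2
  obtain ⟨Q, hQ⟩ := hdvd
  have hQ' : B * M / d ^ 2 = Q := by
    rw [hQ]; exact Nat.mul_div_cancel_left _ hdpos
  rw [hQ'] at hs
  have hM24 : M % 24 = 11 := by omega
  have hBM : (B * M) % 24 = 23 := by
    rw [Nat.mul_mod, hB24, hM24]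
  have hQ24 : Q % 24 = 23 := by
    rw [hQ, Nat.mul_mod, hdsq] at hBM
    simpa using hBM
  have hs24 : 24 * s = Q + 1 := by omega
  have hQle : Q ≤ B * M := by
    rw [hQ]; exact Nat.le_mul_of_pos_left _ hdpos
  have hBM2 : B * M ≤ (A - 3) * (24 * n) := Nat.mul_le_mul (by omega) (by omega)
  have hA3 : (A - 3) * (24 * n) + 3 * (24 * n) = A * (24 * n) := by
    rw [← Nat.add_mul]; congr 1; omega
  refine ⟨hd0, by omega, ?_, ?_⟩
  · have h1 : 24 * s ≤ 24 * (A * n) := by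
      have : 24 * (A * n) = A * (24 * n) := by ring
      omega
    omega
  · have : 24 * s - 1 = Q := by omega
    rw [this]
    exact hQ

theorem OP (hIDL : IDL_stmt) : OP_stmt := by
  intro b e n hb hn hone hcln
  have hA : (2 : ℕ) ^ (2 * b) = 4 ^ b := by
    rw [pow_mul]; norm_num
  obtain ⟨hA24, hA16⟩ := OP_pow b hb
  have hid := hIDL (2 * b) n (by omega) (by rw [hA]; omega)
  rw [hA] at hid
  have hL : ∑ r ∈ rs (4 ^ b) n, pp ((n - tri r) / 4 ^ b) = 1 := by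
    have h1 : ∑ r ∈ rs (4 ^ b) n, pp ((n - tri r) / 4 ^ b) =
        ∑ r ∈ rs (4 ^ b) n,
          (if Odd (Fintype.card (Nat.Partition ((n - tri r) / 4 ^ b))) then (1 : ZMod 2) else 0) :=
      Finset.sum_congr rfl fun r _ => OP_pp _
    rw [h1, Finset.sum_boole, hone]
    simp
  rw [hL] at hid
  have hne : ∑ w ∈ ws (4 ^ b), ∑ d ∈ (Nat.gcd (4 ^ b - 3 * w ^ 2) (24 * n + 3 - 4 ^ b)).divisors,
      pp (((4 ^ b - 3 * w ^ 2) * (24 * n + 3 - 4 ^ b) / d ^ 2 + 1) / 24) ≠ 0 := by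
    rw [← hid]
    exact one_ne_zero
  obtain ⟨w, hw, hw'⟩ := Finset.exists_ne_zero_of_sum_ne_zero hne
  obtain ⟨d, hd, hd'⟩ := Finset.exists_ne_zero_of_sum_ne_zero hw'
  obtain ⟨-, hw1, hw2⟩ := Finset.mem_filter.1 hw
  have hdg := Nat.dvd_of_mem_divisors hd
  have hd1 := hdg.trans (Nat.gcd_dvd_left _ _)
  have hd2 := hdg.trans (Nat.gcd_dvd_right _ _)
  have hM : 24 * n + 3 = (24 * n + 3 - 4 ^ b) + 4 ^ b := by omega
  have hM0 : 0 < 24 * n + 3 - 4 ^ b := by omega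
  obtain ⟨g1, g2, g3, g4⟩ := OP_val hA24 hA16 hw1 hw2 hM0 hM hd1 hd2 rfl
  refine ⟨w, hw, d, _, g1, ?_, g2, g3, ?_, hd1, hd2, g4⟩
  · by_contra hlt
    push Not at hlt
    exact hcln w hw d hlt hd1 hd2
  · by_contra hodd
    apply hd'
    rw [OP_pp, if_neg hodd]

end Pool.Agent.EP
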